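import Pool.Agent.Lib.EC94.Bd

set_option autoImplicit false

namespace Pool.Agent.Results.MP_cd9c78_co.BoundaryInequality

open Pool.Agent.Lib.EC94

/-- Boundary inequality for families of graphs on `n` vertices with `r`-edge-connected pairwise
intersections, for all `j` with `2 j + 2 ≤ r` (for `r = 2`: `j = 0`, `below F 0 = F`, and
`boundary F 0` consists of the graphs outside `F` which arise from a member of `F` by deleting
one edge). Here `ups F j H` is the graph formed by the edges `e` with `H + e` in `below F j`. -/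
theorem result {n r j : ℕ} (hn : 1 ≤ n) (hj : 2 * j + 2 ≤ r)
    (F : Finset (SimpleGraph (Fin n)))
    (hF : ∀ G ∈ F, ∀ G' ∈ F, (G ⊓ G').IsEdgeConnected r) :
    ((below F j).card : ℚ) + ∑ H ∈ boundary F j,
      1 / ((Nat.card (ups F j H).ConnectedComponent : ℚ) + 1) ≤ 2 ^ (n - 1).choose 2 := by
  obtain ⟨m, rfl⟩ : ∃ m, n = m + 1 := ⟨n - 1, by omega⟩
  exact main_even F hj hF

end Pool.Agent.Results.MP_cd9c78_co.BoundaryInequality
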