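import Pool.Agent.Lib.EC78.Main

set_option autoImplicit false

namespace Pool.Agent.Results.MP_cd9c78_co.EdgeConnFamilies

open Pool.Agent.Lib.EC78

/-- Every family of graphs on `n = m + 2` vertices with `r`-edge-connected pairwise
intersections (`r ≥ 1`) has at most `2 ^ (n - 2).choose 2 * D(n - 1, r)` members, where
`D(N, r)` is the largest number of subsets of an `N`-set whose pairwise symmetric differences
have at most `N - r` elements. -/
theorem result {m r : ℕ} (hr : 1 ≤ r) (F : Finset (SimpleGraph (Fin (m + 2))))
    (hF : ∀ G ∈ F, ∀ G' ∈ F, (G ⊓ G').IsEdgeConnected r) :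
    F.card ≤ 2 ^ m.choose 2 * diametric (m + 1) r :=
  main_bound hr F hF

end Pool.Agent.Results.MP_cd9c78_co.EdgeConnFamilies
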